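import Pool.Agent.Lib.MP_af3a4a_an.P1.CHK.DATA.N46x47.K0
import Pool.Agent.Lib.MP_af3a4a_an.P1.CHK.DATA.N46x47.K1
import Pool.Agent.Lib.MP_af3a4a_an.P1.CHK.DATA.N46x47.K2
import Pool.Agent.Lib.MP_af3a4a_an.P1.CHK.DATA.N46x47.K3

/-! glue for 46 <= N <= 47 (generated) -/

set_option autoImplicit false
set_option maxRecDepth 100000

namespace Pool.Agent.Lib.MP_af3a4a_an.P1.CHK.DATA.N46x47

open BOX

theorem g0 : ChunkP 46 47 0 512 0 101 0 2484 := ChunkP.g k0 k1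
theorem g1 : ChunkP 46 47 768 1024 80 88 1632 2484 := ChunkP.r k16 k17
theorem g2 : ChunkP 46 47 768 1024 80 88 1584 2484 := ChunkP.R k15 g1
theorem g3 : ChunkP 46 47 768 1024 80 88 1536 2484 := ChunkP.R k14 g2
theorem g4 : ChunkP 46 47 768 1024 80 88 1440 2484 := ChunkP.R k13 g3
theorem g5 : ChunkP 46 47 768 1024 80 88 1248 2484 := ChunkP.R k12 g4
theorem g6 : ChunkP 46 47 768 1024 80 96 1248 2484 := ChunkP.g g5 k18
theorem g7 : ChunkP 46 47 768 1024 80 96 1200 2484 := ChunkP.R k11 g6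
theorem g8 : ChunkP 46 47 768 1024 80 96 1104 2484 := ChunkP.R k10 g7
theorem g9 : ChunkP 46 47 768 1024 80 96 960 2484 := ChunkP.R k9 g8
theorem g10 : ChunkP 46 47 768 1024 80 96 672 2484 := ChunkP.R k8 g9
theorem g11 : ChunkP 46 47 512 1024 80 96 672 2484 := ChunkP.r k7 g10
theorem g12 : ChunkP 46 47 512 1024 80 96 624 2484 := ChunkP.R k6 g11
theorem g13 : ChunkP 46 47 512 1024 80 96 576 2484 := ChunkP.R k5 g12
theorem g14 : ChunkP 46 47 512 1024 80 96 0 2484 := ChunkP.R k4 g13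
theorem g15 : ChunkP 46 47 512 1024 64 96 0 2484 := ChunkP.g k3 g14
theorem g16 : ChunkP 46 47 512 1024 64 101 0 2484 := ChunkP.g g15 k19
theorem g17 : ChunkP 46 47 512 1024 0 101 0 2484 := ChunkP.g k2 g16
theorem g18 : ChunkP 46 47 0 1024 0 101 0 2484 := ChunkP.r g0 g17
theorem g19 : ChunkP 46 47 1024 1536 64 80 480 2484 := ChunkP.r k23 k24
theorem g20 : ChunkP 46 47 1024 1536 64 80 432 2484 := ChunkP.R k22 g19
theorem g21 : ChunkP 46 47 1024 1536 64 80 0 2484 := ChunkP.R k21 g20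
theorem g22 : ChunkP 46 47 1024 1536 80 96 480 2484 := ChunkP.r k27 k28
theorem g23 : ChunkP 46 47 1024 1536 80 96 432 2484 := ChunkP.R k26 g22
theorem g24 : ChunkP 46 47 1024 1536 80 96 0 2484 := ChunkP.R k25 g23
theorem g25 : ChunkP 46 47 1024 1536 64 96 0 2484 := ChunkP.g g21 g24
theorem g26 : ChunkP 46 47 1024 1536 64 101 0 2484 := ChunkP.g g25 k29
theorem g27 : ChunkP 46 47 1024 1536 0 101 0 2484 := ChunkP.g k20 g26
theorem g28 : ChunkP 46 47 1536 2048 64 96 0 2484 := ChunkP.g k31 k32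
theorem g29 : ChunkP 46 47 1536 2048 64 101 0 2484 := ChunkP.g g28 k33
theorem g30 : ChunkP 46 47 1536 2048 0 101 0 2484 := ChunkP.g k30 g29
theorem g31 : ChunkP 46 47 1024 2048 0 101 0 2484 := ChunkP.r g27 g30
theorem g32 : ChunkP 46 47 0 2048 0 101 0 2484 := ChunkP.r g18 g31
theorem g33 : ChunkP 46 47 2048 3072 0 101 0 2484 := ChunkP.r k34 k35
theorem g34 : ChunkP 46 47 2048 4096 0 101 0 2484 := ChunkP.r g33 k36
theorem g35 : ChunkP 46 47 0 4096 0 101 0 2484 := ChunkP.r g32 g34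

/-- the whole box -/
theorem allBox : ChunkP 46 47 0 4096 0 101 0 2484 := g35

theorem full {N : ℕ} (hNa : 46 ≤ N) (hNb : N ≤ 47) {z w : Fin N → ℂ} {R : ℝ} {σ : Fin N → ℂ}
    (hC : Pool.Agent.Lib.MP_af3a4a_an.P1.H80.Cfg2 N z w R σ) : ((2484 : ℕ) : ℝ) / 1024 < R := ChunkP.full allBox hNa hNb hC

end Pool.Agent.Lib.MP_af3a4a_an.P1.CHK.DATA.N46x47
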